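import Pool.Agent.Helper3.WA.Defs
import Pool.Agent.Helper90.WT.B5

/-! Project WA, piece WA-20: `rp_A`. -/

set_option autoImplicit false

namespace Pool.Agent.Helper90.WA

open Finset
open Pool.Agent.Helper48.ET
open Pool.Agent.Helper3.WT (rp GG P0)
open Pool.Agent.Helper3.WA
open Pool.Agent.Helper90.WT (fin_pairs)

theorem p_pos (σ : SysA) (k : ℕ) : 0 < σ.p k := by
  have h1 := (σ.comp k).two_le
  have h2 := (σ.comp k).beta_pos
  have h3 := (σ.comp k).lab_le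
  have h4 : 1 ≤ 2 * σ.M k * σ.β k := Nat.one_le_iff_ne_zero.2 (by positivity)
  omega

theorem W_mono (σ : SysA) {k l : ℕ} (h : k ≤ l) : σ.W k ≤ σ.W l := by
  unfold SysA.W
  refine Finset.prod_le_prod_of_subset_of_one_le' (Finset.range_mono h) ?_
  intro j _ _
  have h1 := p_pos σ j
  exact Nat.one_le_pow _ _ (by omega)

/-- WA-20 (from WA-18, WA-19): at most `2 (K + 1)` types of the smaller summand -/
theorem rp_A (σ : SysA)
    (part_ge : ∀ {k N : ℕ}, N < σ.M k → ∀ a ∈ σ.Part k N,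
      σ.W k * (2 * σ.p k) ^ (2 * N) ≤ a)
    (rp_part_part : ∀ {k k' N N' : ℕ}, (k' < k ∨ (k' = k ∧ N' ≤ N)) →
      N < σ.M k → N' < σ.M k' → ∀ n : ℕ,
      rp (σ.Part k N) (σ.Part k' N') n ≤ (∏ j ∈ range (k + 1), σ.G j) * σ.H k')
    (top_unique : ∀ {k k' N N' l l' O O' : ℕ}, (k' < k ∨ (k' = k ∧ N' ≤ N)) →
      N < σ.M k → N' < σ.M k' → (l' < l ∨ (l' = l ∧ O' ≤ O)) → O < σ.M l → O' < σ.M l' →
      ∀ {a b a2 b2 : ℕ}, a ∈ σ.Part k N → b ∈ σ.Part k' N' → a2 ∈ σ.Part l O →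
      b2 ∈ σ.Part l' O' → a + b = a2 + b2 → k = l ∧ N = O)
    (label_unique : ∀ {k k' N N' O' : ℕ}, (k' < k ∨ (k' = k ∧ N' ≤ N)) →
      (k' < k ∨ (k' = k ∧ O' ≤ N)) → N < σ.M k → 1 ≤ N' → N' < σ.M k' → 1 ≤ O' →
      O' < σ.M k' → ∀ {a b a2 b2 : ℕ}, a ∈ σ.Part k N → b ∈ σ.Part k' N' →
      a2 ∈ σ.Part k N → b2 ∈ σ.Part k' O' → a + b = a2 + b2 → N' = O')
    {K n h : ℕ} (hn : n < σ.W (K + 1)) (hH : ∀ j ≤ K, σ.H j ≤ h) :
    rp σ.A σ.A n ≤ 4 * (K + 1) * (∏ j ∈ range (K + 1), σ.G j) * h := by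
  classical
  set P : Set (ℕ × ℕ) := {q | (∃ k N k' N', (k' < k ∨ (k' = k ∧ N' ≤ N)) ∧ N < σ.M k ∧
    N' < σ.M k' ∧ q.1 ∈ σ.Part k N ∧ q.2 ∈ σ.Part k' N') ∧ q.1 + q.2 = n} with hP
  have hPA : P ⊆ {q : ℕ × ℕ | q.1 ∈ σ.A ∧ q.2 ∈ σ.A ∧ q.1 + q.2 = n} := by
    rintro ⟨a, b⟩ ⟨⟨k, N, k', N', _, hN, hN', ha, hb⟩, hs⟩
    exact ⟨⟨k, N, hN, ha⟩, ⟨k', N', hN', hb⟩, hs⟩
  have hfin : {q : ℕ × ℕ | q.1 ∈ σ.A ∧ q.2 ∈ σ.A ∧ q.1 + q.2 = n}.Finite := fin_pairs _ _ _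
  have hPfin : P.Finite := hfin.subset hPA
  have hG : ∀ j, 1 ≤ σ.G j := fun j => (σ.comp j).G_pos
  set Γ : ℕ := ∏ j ∈ range (K + 1), σ.G j with hΓ
  -- the bound for `P`
  have hPcard : P.ncard ≤ 2 * (K + 1) * Γ * h := by
    rcases Set.eq_empty_or_nonempty P with he | ⟨⟨a0, b0⟩, ⟨k, N, l0, O0, hkN, hN, hN0,
      ha0, hb0⟩, hs0⟩
    · rw [he, Set.ncard_empty]; exact Nat.zero_le _
    · simp only at ha0 hb0 hs0
      have hk : k < K + 1 := by
        by_contra hcon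
        have h1 := part_ge hN a0 ha0
        have h2W := W_mono σ (not_lt.1 hcon)
        have hp := p_pos σ k
        have h3 : 1 ≤ (2 * σ.p k) ^ (2 * N) := Nat.one_le_pow _ _ (by omega)
        have h4 : σ.W k ≤ σ.W k * (2 * σ.p k) ^ (2 * N) := Nat.le_mul_of_pos_right _ h3
        omega
      -- a part of fixed types
      have hone : ∀ k' N', (k' < k ∨ (k' = k ∧ N' ≤ N)) → N' < σ.M k' →
          {q : ℕ × ℕ | q.1 ∈ σ.Part k N ∧ q.2 ∈ σ.Part k' N' ∧ q.1 + q.2 = n}.ncard ≤ Γ * h := by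
        intro k' N' hc hN'
        have h1 := rp_part_part hc hN hN' n
        have h2 : ∏ j ∈ range (k + 1), σ.G j ≤ Γ :=
          Finset.prod_le_prod_of_subset_of_one_le' (Finset.range_mono (by omega))
            (fun j _ _ => hG j)
        have h3 : σ.H k' ≤ h := hH k' (by omega)
        exact h1.trans (Nat.mul_le_mul h2 h3)
      -- the pieces with a given component of the smaller summand
      let Q : ℕ → Set (ℕ × ℕ) := fun k' => {q | (∃ N', (k' < k ∨ (k' = k ∧ N' ≤ N)) ∧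
        N' < σ.M k' ∧ q.1 ∈ σ.Part k N ∧ q.2 ∈ σ.Part k' N') ∧ q.1 + q.2 = n}
      have hQfin : ∀ k', (Q k').Finite := by
        intro k'
        refine hfin.subset ?_
        rintro ⟨a, b⟩ ⟨⟨N', _, hN', ha, hb⟩, hs⟩
        exact ⟨⟨k, N, hN, ha⟩, ⟨k', N', hN', hb⟩, hs⟩
      have hQcard : ∀ k', (Q k').ncard ≤ 2 * (Γ * h) := by
        intro k'
        -- words of length `0` and words of length `≥ 1`
        let Q1 : Set (ℕ × ℕ) := {q | (∃ N', 1 ≤ N' ∧ (k' < k ∨ (k' = k ∧ N' ≤ N)) ∧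
          N' < σ.M k' ∧ q.1 ∈ σ.Part k N ∧ q.2 ∈ σ.Part k' N') ∧ q.1 + q.2 = n}
        let Q0 : Set (ℕ × ℕ) := {q | ((k' < k ∨ (k' = k ∧ 0 ≤ N)) ∧
          0 < σ.M k' ∧ q.1 ∈ σ.Part k N ∧ q.2 ∈ σ.Part k' 0) ∧ q.1 + q.2 = n}
        have hsub : Q k' ⊆ Q0 ∪ Q1 := by
          rintro ⟨a, b⟩ ⟨⟨N', hc, hN', ha, hb⟩, hs⟩
          rcases Nat.eq_zero_or_pos N' with h0 | h0
          · subst h0
            exact Or.inl ⟨⟨hc, hN', ha, hb⟩, hs⟩
          · exact Or.inr ⟨⟨N', h0, hc, hN', ha, hb⟩, hs⟩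
        have hQ0 : Q0.ncard ≤ Γ * h := by
          rcases Set.eq_empty_or_nonempty Q0 with he | ⟨⟨a, b⟩, ⟨hc, hM, _, _⟩, _⟩
          · rw [he, Set.ncard_empty]; exact Nat.zero_le _
          · refine le_trans (Set.ncard_le_ncard ?_ (fin_pairs _ _ _)) (hone k' 0 hc hM)
            rintro ⟨a, b⟩ ⟨⟨_, _, ha, hb⟩, hs⟩
            exact ⟨ha, hb, hs⟩
        have hQ1 : Q1.ncard ≤ Γ * h := by
          rcases Set.eq_empty_or_nonempty Q1 with he | ⟨⟨a1, b1⟩, ⟨N1, h11, hc1, hN1, ha1, hb1⟩, hs1⟩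
          · rw [he, Set.ncard_empty]; exact Nat.zero_le _
          · simp only at ha1 hb1 hs1
            refine le_trans (Set.ncard_le_ncard ?_ (fin_pairs _ _ _)) (hone k' N1 hc1 hN1)
            rintro ⟨a, b⟩ ⟨⟨N', h1, hc, hN', ha, hb⟩, hs⟩
            simp only at ha hb hs
            have e := label_unique hc1 hc hN h11 hN1 h1 hN' ha1 hb1 ha hb (hs1.trans hs.symm)
            subst e
            exact ⟨ha, hb, hs⟩
        have hQ0fin : Q0.Finite := by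
          refine (fin_pairs (σ.Part k N) (σ.Part k' 0) n).subset ?_
          rintro ⟨a, b⟩ ⟨⟨_, _, ha, hb⟩, hs⟩
          exact ⟨ha, hb, hs⟩
        have hQ1fin : Q1.Finite := by
          refine hfin.subset ?_
          rintro ⟨a, b⟩ ⟨⟨N', _, _, hN', ha, hb⟩, hs⟩
          exact ⟨⟨k, N, hN, ha⟩, ⟨k', N', hN', hb⟩, hs⟩
        calc (Q k').ncard ≤ (Q0 ∪ Q1).ncard := Set.ncard_le_ncard hsub (hQ0fin.union hQ1fin)
          _ ≤ Q0.ncard + Q1.ncard := Set.ncard_union_le _ _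
          _ ≤ 2 * (Γ * h) := by omega
      -- covering
      have hcov : P ⊆ ⋃ k' ∈ Finset.range (K + 1), Q k' := by
        rintro ⟨a, b⟩ ⟨⟨l, O, l', O', hlO, hO, hO', ha, hb⟩, hs⟩
        simp only at ha hb hs
        obtain ⟨e1, e2⟩ := top_unique hkN hN hN0 hlO hO hO' ha0 hb0 ha hb (hs0.trans hs.symm)
        subst e1 e2
        simp only [Set.mem_iUnion]
        exact ⟨l', Finset.mem_range.2 (by omega), ⟨O', hlO, hO', ha, hb⟩, hs⟩
      have hsum : ∀ s : Finset ℕ, (⋃ k' ∈ s, Q k').ncard ≤ s.card * (2 * (Γ * h)) := by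
        intro s
        induction s using Finset.induction_on with
        | empty => simp
        | insert c s hcs ih =>
          rw [Finset.set_biUnion_insert, Finset.card_insert_of_notMem hcs]
          calc (Q c ∪ ⋃ k' ∈ s, Q k').ncard ≤ (Q c).ncard + (⋃ k' ∈ s, Q k').ncard :=
                Set.ncard_union_le _ _
            _ ≤ 2 * (Γ * h) + s.card * (2 * (Γ * h)) := Nat.add_le_add (hQcard c) ih
            _ = (s.card + 1) * (2 * (Γ * h)) := by ring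
      have hcovfin : (⋃ k' ∈ Finset.range (K + 1), Q k').Finite :=
        Set.Finite.biUnion (Finset.finite_toSet _) (fun k' _ => hQfin k')
      calc P.ncard ≤ (⋃ k' ∈ Finset.range (K + 1), Q k').ncard :=
            Set.ncard_le_ncard hcov hcovfin
        _ ≤ (Finset.range (K + 1)).card * (2 * (Γ * h)) := hsum _
        _ = 2 * (K + 1) * Γ * h := by rw [Finset.card_range]; ring
  -- splitting
  have hsplit : {q : ℕ × ℕ | q.1 ∈ σ.A ∧ q.2 ∈ σ.A ∧ q.1 + q.2 = n} ⊆ P ∪ Prod.swap '' P := by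
    rintro ⟨a, b⟩ ⟨⟨k, N, hN, ha⟩, ⟨k', N', hN', hb⟩, hs⟩
    simp only at ha hb hs
    by_cases hc : k' < k ∨ (k' = k ∧ N' ≤ N)
    · exact Or.inl ⟨⟨k, N, k', N', hc, hN, hN', ha, hb⟩, hs⟩
    · right
      refine ⟨(b, a), ⟨⟨k', N', k, N, ?_, hN', hN, hb, ha⟩, ?_⟩, rfl⟩
      · rcases lt_trichotomy k k' with h | h | h
        · exact Or.inl h
        · refine Or.inr ⟨h, ?_⟩
          by_contra hc2
          exact hc (Or.inr ⟨h.symm, by omega⟩)
        · exact absurd (Or.inl h) hc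
      · simp only; omega
  calc rp σ.A σ.A n ≤ (P ∪ Prod.swap '' P).ncard :=
        Set.ncard_le_ncard hsplit (hPfin.union (hPfin.image _))
    _ ≤ P.ncard + (Prod.swap '' P).ncard := Set.ncard_union_le _ _
    _ ≤ P.ncard + P.ncard := by
        have := Set.ncard_image_le (f := Prod.swap) hPfin
        omega
    _ ≤ 2 * (2 * (K + 1) * Γ * h) := by omega
    _ = 4 * (K + 1) * Γ * h := by ring

end Pool.Agent.Helper90.WA
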